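import Pool.Agent.H516.PCF.All

/-! PATH: paths from a point of `O` to a postcritical point. -/

set_option autoImplicit false

namespace Pool.Agent.H331.PCF

open Polynomial Pool.Agent.H516.PCF

/-- Gauss valuations on very large discs -/
theorem gv_far {F : Type} [Field F] [IsAlgClosed F] (w : F → ℝ) (U : F[X]) (a : F) :
    ∃ R : ℝ, ∀ ρ ≤ R, gv w U a ρ = w U.leadingCoeff + U.natDegree * ρ := by
  classical
  obtain ⟨R, hR⟩ := ((U.roots.toFinset.image fun z => w (a - z)).finite_toSet).bddBelow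
  refine ⟨R, fun ρ hρ => ?_⟩
  have h1 : U.roots.map (fun z => mn w a z ρ) = U.roots.map (fun _ => ρ) := by
    apply Multiset.map_congr rfl
    intro z hz
    unfold mn
    split_ifs with h
    · rfl
    · apply min_eq_right
      refine hρ.trans (hR ?_)
      rw [Finset.mem_coe, Finset.mem_image]
      exact ⟨z, Multiset.mem_toFinset.2 hz, rfl⟩
  have h2 : U.roots.card = U.natDegree := by
    exact (splits_iff_card_roots.1 (IsAlgClosed.splits U))
  unfold gv
  rw [h1, Multiset.map_const', Multiset.sum_replicate, h2, nsmul_eq_mul]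

theorem path (hNAB : S_NAB) (hGVB : S_GVB) (hPT : S_PT) (hWDEG : S_WDEG) (hDEG : S_DEG)
    (hMULT : S_MULT) (hORB : S_ORB) (hFIB : S_FIB) : S_PATH := by
  intro F _ _ _ p w d P Q A O D γ hγ
  obtain ⟨hw1, hwneg, hwinv, hwpow, hwdiv, -⟩ := hNAB F p w D.prime D.na
  obtain ⟨hgmul, -⟩ := hGVB F p w D.prime D.na
  -- one path for every positive number
  have step : ∀ V : ℝ, 0 < V → ∃ κ ∈ A, ∃ n β c, PathD w d P Q γ κ V n β c := by
    intro V hV
    obtain ⟨n, β, hβ, hVβ⟩ := D.unb γ hγ V
    obtain ⟨hdp, hlp, hdq, hq0, hcop, -, hlast⟩ := hDEG F d P Q D.nrm n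
    obtain ⟨-, hmem, hA⟩ := hFIB F d P Q D.nrm n γ
    have hWβ : (wr (pn d P Q n) (qn d P Q n)).eval β ≠ 0 :=
      ((hA A D.post (D.disj γ hγ)).2 β hβ).2
    have hqβ : (qn d P Q n).eval β ≠ 0 := ((hmem β).1 hβ).1
    set W := wr (pn d P Q n) (qn d P Q n) with hW
    set B := qn d P Q n with hB
    have hW0 : W ≠ 0 := by
      intro h
      rw [h, eval_zero] at hWβ
      exact hWβ rfl
    have hB20 : B ^ 2 ≠ 0 := pow_ne_zero 2 hq0
    have hB2β : (B ^ 2).eval β ≠ 0 := by
      rw [eval_pow]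
      exact pow_ne_zero 2 hqβ
    have hval : V ≤ w (W.eval β) - w ((B ^ 2).eval β) := by
      rw [eval_pow, ← hwdiv _ _ hWβ (pow_ne_zero 2 hqβ)]
      exact hVβ
    have hgB : ∀ a ρ, gv w (B ^ 2) a ρ = 2 * gv w B a ρ := by
      intro a ρ
      rw [pow_two, hgmul B B hq0 hq0]
      ring
    rcases hPT F p w D.prime D.na W (B ^ 2) hW0 hB20 β V hWβ hB2β hval with h | h
    · obtain ⟨c, hc, hρ⟩ := h
      have hqc : B.eval c ≠ 0 := by
        intro h0
        have h1 := hMULT F (pn d P Q n) B hcop hq0 hW0 c h0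
        exact absurd hc (not_lt.2 h1.le)
      have hWc : W.eval c = 0 := by
        have h1 : 0 < rootMultiplicity c W := (Nat.zero_le _).trans_lt hc
        exact (rootMultiplicity_pos hW0).1 h1
      have hκ : fn d P Q n c ∈ A := (hORB F d P Q A D.nrm D.post n c hqc).2.1 hWc
      refine ⟨fn d P Q n c, hκ, n, β, c, hβ, hqc, rfl, ?_, ?_⟩
      · intro h0
        rw [h0] at hWβ
        exact hWβ hWc
      · intro ρ hρ'
        have h1 := hρ ρ hρ'
        rw [hgB, hgB] at h1
        exact h1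
    · exfalso
      obtain ⟨hdeg, hρ⟩ := h
      have hlt : B.natDegree < (pn d P Q n).natDegree := by
        rw [hdp]
        exact hdq
      obtain ⟨-, hWd, hWl⟩ := hWDEG F (pn d P Q n) B hq0 hlt
      rw [← hW] at hWd hWl
      rw [natDegree_pow] at hdeg
      have hqd : B.natDegree + 1 = d ^ n := by
        rw [hdp] at hWd
        omega
      have hWd2 : W.natDegree = 2 * B.natDegree := by
        rw [hdp] at hWd
        omega
      have hfac : ((pn d P Q n).natDegree : F) - (B.natDegree : F) = 1 := by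
        rw [hdp, ← hqd]
        push_cast
        ring
      rw [hfac, one_mul] at hWl
      have hlq0 : B.leadingCoeff ≠ 0 := leadingCoeff_ne_zero.2 hq0
      have hlp0 : (pn d P Q n).leadingCoeff ≠ 0 := by
        intro h0
        rw [h0, zero_mul] at hWl
        exact hW0 (leadingCoeff_eq_zero.1 hWl)
      obtain ⟨R₁, hR₁⟩ := gv_far w W β
      obtain ⟨R₂, hR₂⟩ := gv_far w (B ^ 2) β
      have h1 := hρ (min R₁ R₂)
      rw [hR₁ _ (min_le_left _ _), hR₂ _ (min_le_right _ _), leadingCoeff_pow, natDegree_pow,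
        hWd2, hWl, D.na.mul _ _ hlp0 hlq0, hwpow _ hlq0 2] at h1
      push_cast at h1
      have h2 : V ≤ w (pn d P Q n).leadingCoeff - w B.leadingCoeff := by linarith
      -- the leading coefficients
      have h3 := hlast hqd
      have ha0 : P.leadingCoeff ≠ 0 := by
        intro h0
        have h4 : P = 0 := leadingCoeff_eq_zero.1 h0
        have h5 := D.nrm.degP
        rw [h4, natDegree_zero] at h5
        have h6 := D.nrm.two_le
        omega
      rcases Nat.eq_zero_or_pos n with hn | hn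
      · rw [hn, pow_zero, pow_zero, mul_one, mul_one, ← hn] at h3
        rw [h3] at h2
        linarith
      · have hc0 : Q.coeff (d - 1) ≠ 0 := by
          intro h0
          rw [h0, zero_pow hn.ne', mul_zero] at h3
          exact mul_ne_zero hlq0 (pow_ne_zero n ha0) h3
        have hle : w P.leadingCoeff ≤ w (Q.coeff (d - 1)) := D.nonrep.resolve_left hc0
        have h4 := congrArg w h3
        rw [D.na.mul _ _ hlq0 (pow_ne_zero n ha0), D.na.mul _ _ hlp0 (pow_ne_zero n hc0),
          hwpow _ ha0, hwpow _ hc0] at h4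
        have h5 : (n : ℝ) * w P.leadingCoeff ≤ n * w (Q.coeff (d - 1)) :=
          mul_le_mul_of_nonneg_left hle (Nat.cast_nonneg n)
        linarith
  -- one point for all numbers
  by_contra hcon
  push Not at hcon
  choose! f hf using hcon
  obtain ⟨M, hM⟩ := (D.post.fin.image f).bddAbove
  obtain ⟨κ, hκ, n, β, c, h1, h2, h3, h4, h5⟩ := step (max 1 M) (lt_max_of_lt_left one_pos)
  refine hf κ hκ n β c ⟨h1, h2, h3, h4, fun ρ hρ => ?_⟩
  have h6 : f κ ≤ max 1 M := (hM ⟨κ, hκ, rfl⟩).trans (le_max_right _ _)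
  exact ⟨h6.trans (h5 ρ hρ).1, h6.trans (h5 ρ hρ).2⟩

end Pool.Agent.H331.PCF
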